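import Pool.Agent.helper84.NR.SpecW

set_option autoImplicit false

namespace Pool.Agent.helper84.NR

open scoped Classical
open Finset

theorem FRM_fiber {V F : Type} [Fintype V] [Fintype F] (M : PMap V F) (x y : V) (B : F) (hB : OnV M.toCyc B y) :
    ((MPs M x y).filter (fun p => p.2 = B)).card = (NN M x B).card := by
  refine card_bij' (fun p _ => p.1) (fun A _ => (A, B)) ?_ ?_ ?_ ?_
  · rintro ⟨A, B'⟩ hp
    simp only [MPs, NN, mem_filter, mem_univ, true_and] at hp ⊢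
    obtain ⟨⟨h1, h2, h3⟩, rfl⟩ := hp
    exact ⟨h1, h3⟩
  · intro A hA
    simp only [MPs, NN, mem_filter, mem_univ, true_and] at hA ⊢
    exact ⟨⟨hA.1, hB, hA.2⟩, trivial⟩
  · rintro ⟨A, B'⟩ hp
    simp only [mem_filter] at hp
    simp only [hp.2]
  · intro A _
    rfl

theorem FRM_MPs {V F : Type} [Fintype V] [Fintype F] (M : PMap V F) (x y : V) :
    (MPs M x y).card = ∑ B ∈ XM M y x, (NN M x B).card := by
  have h : ∀ p ∈ MPs M x y, p.2 ∈ XM M y x := by
    rintro ⟨A, B⟩ hp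
    simp only [MPs, XM, mem_filter, mem_univ, true_and] at hp ⊢
    obtain ⟨h1, h2, v, h3, h4⟩ := hp
    exact ⟨h2, A, h1, v, h4, h3⟩
  rw [card_eq_sum_card_fiberwise (f := Prod.snd) (t := XM M y x) h]
  refine sum_congr rfl fun B hB => ?_
  simp only [XM, mem_filter, mem_univ, true_and] at hB
  exact FRM_fiber M x y B hB.1

theorem FRM_sX {V F : Type} [Fintype V] [Fintype F] (M : PMap V F) (x y : V)
    (hne : ∀ f, ¬ (OnV M.toCyc f x ∧ OnV M.toCyc f y)) (hcn : ∀ s, Adj M.toCyc x s → ¬ Adj M.toCyc s y) :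
    (sX M x y).card = ∑ B ∈ XM M y x, (QQ M x B).card := by
  have hu : sX M x y = (XM M y x).biUnion (fun B => QQ M x B) := by
    ext s
    simp only [sX, XM, QQ, mem_biUnion, mem_filter, mem_univ, true_and]
    constructor
    · rintro ⟨h1, B, h2, h3⟩
      obtain ⟨A, hA⟩ := h1
      obtain ⟨g1, g2, -⟩ := (h_EDG V F M).1 A x s hA
      exact ⟨B, ⟨h2, A, g1, s, h3, g2⟩, ⟨A, hA⟩, h3⟩
    · rintro ⟨B, ⟨h2, -⟩, h1, h3⟩
      exact ⟨h1, B, h2, h3⟩
  rw [hu, card_biUnion]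
  intro B hB B' hB' hBB
  rw [mem_coe] at hB hB'
  simp only [XM, mem_filter, mem_univ, true_and] at hB hB'
  change Disjoint (QQ M x B) (QQ M x B')
  rw [Finset.disjoint_left]
  intro s hs hs'
  simp only [QQ, mem_filter, mem_univ, true_and] at hs hs'
  have hsy : s ≠ y := by
    rintro rfl
    obtain ⟨A, hA⟩ := hs.1
    obtain ⟨g1, g2, -⟩ := (h_EDG V F M).1 A x s hA
    exact hne A ⟨g1, g2⟩
  have := (M.poly B B' hBB s y hsy hs.2 hB.1 hs'.2 hB'.1).1
  exact hcn s hs.1 ⟨B, this⟩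

theorem FRM : FRM_stmt := by
  intro V F _ _ M x y hne hcn
  have h1 : ∀ B ∈ XM M y x, (((shV M x B).card : ℤ) - (shE M x B).card - 1) =
      ((NN M x B).card : ℤ) - (QQ M x B).card - 1 := by
    intro B hB
    simp only [XM, mem_filter, mem_univ, true_and] at hB
    have := h_NVQ V F M x B (fun h => hne B ⟨h, hB.1⟩)
    omega
  rw [sum_congr rfl h1, sum_sub_distrib, sum_sub_distrib, FRM_MPs, FRM_sX M x y hne hcn, sum_const]
  push_cast
  simp

end Pool.Agent.helper84.NR
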